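import Mathlib

/-!
# MP_698530_nt, Q1 (affirmative answer)

`(2bn+1)(2bn+3) C(2bn,bn)` divides `3(a-b)(3a-b) C(2an,an) C(an,bn)` for all positive `a > b` and `n`.
-/

namespace Pool.Agent.Results.MP_698530_nt.Full

open Finset

theorem fact_card {p N B : ℕ} (pp : p.Prime) (hN : N ≠ 0) (hB : N < p ^ B) :
    N.factorization p = ∑ i ∈ Ico 1 B, if p ^ i ∣ N then 1 else 0 := by
  rw [← Finset.card_filter]
  have h1 : (Ico 1 B).filter (fun i => p ^ i ∣ N) = Ico 1 (N.factorization p + 1) := by
    ext i
    simp only [mem_filter, mem_Ico]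
    rw [pp.pow_dvd_iff_le_factorization hN]
    have h2 : N.factorization p < B := by
      by_contra h
      have h3 : B ≤ N.factorization p := by omega
      have h4 := (pp.pow_dvd_iff_le_factorization hN).mpr h3
      exact absurd (Nat.le_of_dvd (Nat.pos_of_ne_zero hN) h4) (by omega)
    omega
  rw [h1]
  simp

/-- comparison of the digits -/
theorem carry {q M m : ℕ} (hq : 0 < q) (hmM : m ≤ M) :
    q ≤ m % q + (M - m) % q ↔ M % q < m % q := by
  have h1 := Nat.div_add_mod M q
  have h2 := Nat.div_add_mod m q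
  have h3 := Nat.div_add_mod (M - m) q
  have r1 := Nat.mod_lt M hq
  have r2 := Nat.mod_lt m hq
  have r3 := Nat.mod_lt (M - m) hq
  have h4 : (m % q + (M - m) % q) % q = M % q := by
    rw [← Nat.add_mod, show m + (M - m) = M by omega]
  constructor
  · intro h
    have h5 : (m % q + (M - m) % q) % q = m % q + (M - m) % q - q := by
      rw [Nat.mod_eq_sub_mod h, Nat.mod_eq_of_lt (by omega)]
    omega
  · intro h
    by_contra h6
    have h5 : (m % q + (M - m) % q) % q = m % q + (M - m) % q := Nat.mod_eq_of_lt (by omega)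
    omega

theorem base {q M m : ℕ} :
    (if q ≤ m % q + m % q then 1 else 0) ≤
      (if q ≤ M % q + M % q then 1 else 0) + (if M % q < m % q then 1 else 0) := by
  split_ifs <;> omega

theorem odd1 {q m : ℕ} (hq : 1 < q) (h : q ∣ 2 * m + 1) : 2 * (m % q) + 1 = q := by
  have r2 := Nat.mod_lt m (show 0 < q by omega)
  have h2 := Nat.div_add_mod m q
  have h3 : q ∣ 2 * (m % q) + 1 := by
    have e : 2 * m + 1 = q * (2 * (m / q)) + (2 * (m % q) + 1) := by
      conv_lhs => rw [← h2]
      ring
    rw [e] at h
    exact (Nat.dvd_add_right (dvd_mul_right _ _)).mp h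
  obtain ⟨t, ht⟩ := h3
  have : t = 1 := by
    rcases t with _ | _ | t
    · omega
    · rfl
    · exfalso
      have : q * (t + 1 + 1) ≥ q * 2 := Nat.mul_le_mul_left q (by omega)
      omega
  rw [this] at ht
  omega

theorem odd3 {q m : ℕ} (hq : 1 < q) (h : q ∣ 2 * m + 3) : 2 * (m % q) + 3 = q := by
  have r2 := Nat.mod_lt m (show 0 < q by omega)
  have h2 := Nat.div_add_mod m q
  have h3 : q ∣ 2 * (m % q) + 3 := by
    have e : 2 * m + 3 = q * (2 * (m / q)) + (2 * (m % q) + 3) := by
      conv_lhs => rw [← h2]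
      ring
    rw [e] at h
    exact (Nat.dvd_add_right (dvd_mul_right _ _)).mp h
  obtain ⟨t, ht⟩ := h3
  have : t = 1 := by
    rcases t with _ | _ | _ | t
    · omega
    · rfl
    · exfalso
      omega
    · exfalso
      have : q * (t + 1 + 1 + 1) ≥ q * 3 := Nat.mul_le_mul_left q (by omega)
      omega
  rw [this] at ht
  omega

theorem dvd_sub1 {q M m : ℕ} (h : M % q = m % q) : q ∣ M - m := by
  rcases Nat.le_total m M with hle | hle
  · exact (Nat.modEq_iff_dvd' hle).mp h.symm
  · rw [Nat.sub_eq_zero_of_le hle]; exact dvd_zero q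

theorem dvd_sub3 {q M m : ℕ} (hm : m ≤ M) (h : M % q = m % q + 1) (h3 : 2 * (m % q) + 3 = q) :
    q ∣ 3 * M - m := by
  have h1 := Nat.div_add_mod M q
  have h2 := Nat.div_add_mod m q
  have e : 3 * M = m + q * (3 * (M / q) + 1) - q * (m / q) := by
    have : m + q * (3 * (M / q) + 1) = q * (m / q) + 3 * M := by
      rw [h] at h1
      have : q * (3 * (M / q) + 1) = 3 * (q * (M / q)) + q := by ring
      rw [this]
      omega
    omega
  have e2 : 3 * M - m = q * (3 * (M / q) + 1) - q * (m / q) := by
    have h4 : q * (m / q) ≤ q * (3 * (M / q) + 1) := by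
      apply Nat.mul_le_mul_left
      have := Nat.div_le_div_right (c := q) hm
      omega
    omega
  rw [e2]
  exact Nat.dvd_sub (dvd_mul_right _ _) (dvd_mul_right _ _)

/-- the term by term inequality -/
theorem term {q M m : ℕ} (hq : 1 < q) (hm : m ≤ M) :
    (if q ∣ 2 * m + 1 then 1 else 0) + (if q ∣ 2 * m + 3 then 1 else 0) +
      (if q ≤ m % q + m % q then 1 else 0) ≤
      (if q ∣ M - m then 1 else 0) + (if q ∣ 3 * M - m then 1 else 0) +
      (if q ≤ M % q + M % q then 1 else 0) + (if M % q < m % q then 1 else 0) := by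
  have b1 := base (q := q) (M := M) (m := m)
  by_cases h1 : q ∣ 2 * m + 1
  · have e1 := odd1 hq h1
    have h3 : ¬ q ∣ 2 * m + 3 := by
      intro h3
      have e3 := odd3 hq h3
      omega
    rw [if_pos h1, if_neg h3, if_neg (by omega)]
    rcases Nat.lt_trichotomy (M % q) (m % q) with h | h | h
    · rw [if_pos h]; omega
    · rw [if_pos (dvd_sub1 h)]; omega
    · rw [if_pos (show q ≤ M % q + M % q by omega)]; omega
  · rw [if_neg h1]
    by_cases h3 : q ∣ 2 * m + 3
    · have e3 := odd3 hq h3
      rw [if_pos h3, if_neg (show ¬ q ≤ m % q + m % q by omega)]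
      rcases Nat.lt_trichotomy (M % q) (m % q) with h | h | h
      · rw [if_pos h]; omega
      · rw [if_pos (dvd_sub1 h)]; omega
      · rcases Nat.lt_or_ge (m % q + 1) (M % q) with h4 | h4
        · rw [if_pos (show q ≤ M % q + M % q by omega)]; omega
        · rw [if_pos (dvd_sub3 hm (show M % q = m % q + 1 by omega) e3)]; omega
    · rw [if_neg h3]
      omega

/-- For all positive integers `a > b` and `n`,
`(2bn+1)(2bn+3) C(2bn,bn) ∣ 3(a-b)(3a-b) C(2an,an) C(an,bn)`. -/
theorem result : ∀ a b n : ℕ, 0 < b → b < a → 0 < n →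
    (2 * b * n + 1) * (2 * b * n + 3) * (2 * b * n).choose (b * n) ∣
      3 * (a - b) * (3 * a - b) * (2 * a * n).choose (a * n) * (a * n).choose (b * n) := by
  intro a b n hb hab hn
  set m := b * n with hm
  set M := a * n with hM
  have hmM : m < M := Nat.mul_lt_mul_of_pos_right hab hn
  have hm0 : 0 < m := Nat.mul_pos hb hn
  rw [show 2 * b * n = 2 * m by rw [hm]; ring, show 2 * a * n = 2 * M by rw [hM]; ring]
  have c1 : (2 * m).choose m ≠ 0 := (Nat.choose_pos (by omega)).ne'
  have c2 : (2 * M).choose M ≠ 0 := (Nat.choose_pos (by omega)).ne'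
  have c3 : M.choose m ≠ 0 := (Nat.choose_pos hmM.le).ne'
  have d1 : a - b ≠ 0 := by omega
  have d2 : 3 * a - b ≠ 0 := by omega
  have eMm : M - m = (a - b) * n := by rw [hM, hm, Nat.sub_mul]
  have e3Mm : 3 * M - m = (3 * a - b) * n := by rw [hM, hm, Nat.sub_mul, mul_assoc]
  rw [← Nat.factorization_prime_le_iff_dvd (by positivity) (by positivity)]
  intro p pp
  rw [Nat.factorization_mul (by positivity) c1, Nat.factorization_mul (by positivity) (by positivity),
    Nat.factorization_mul (by positivity) c3, Nat.factorization_mul (by positivity) c2,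
    Nat.factorization_mul (by positivity) d2, Nat.factorization_mul (by norm_num) d1]
  simp only [Finsupp.add_apply]
  -- a bound for the exponents
  obtain ⟨B, hB⟩ : ∃ B, B = 3 * M + 3 * a + 5 := ⟨_, rfl⟩
  have hpB : B < p ^ B := Nat.lt_pow_self pp.one_lt
  have hlog : ∀ x, x ≤ B → Nat.log p x < B := fun x hx => Nat.log_lt_of_lt_pow' (by omega) (by omega)
  rw [fact_card pp (show 2 * m + 1 ≠ 0 by omega) (show 2 * m + 1 < p ^ B by omega),
    fact_card pp (show 2 * m + 3 ≠ 0 by omega) (show 2 * m + 3 < p ^ B by omega),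
    fact_card pp d1 (show a - b < p ^ B by omega), fact_card pp d2 (show 3 * a - b < p ^ B by omega),
    Nat.factorization_choose pp (show m ≤ 2 * m by omega) (hlog (2 * m) (by omega)),
    Nat.factorization_choose pp (show M ≤ 2 * M by omega) (hlog (2 * M) (by omega)),
    Nat.factorization_choose pp hmM.le (hlog M (by omega)), Finset.card_filter, Finset.card_filter,
    Finset.card_filter]
  rw [show 2 * m - m = m by omega, show 2 * M - M = M by omega]
  have hcarry : ∀ i ∈ Ico 1 B, (if p ^ i ≤ m % p ^ i + (M - m) % p ^ i then 1 else 0) =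
      (if M % p ^ i < m % p ^ i then 1 else 0) := by
    intro i _
    have := carry (q := p ^ i) (M := M) (m := m) (by have := pp.pos; positivity) hmM.le
    by_cases h : M % p ^ i < m % p ^ i
    · rw [if_pos h, if_pos (this.mpr h)]
    · rw [if_neg h, if_neg (fun h2 => h (this.mp h2))]
  rw [Finset.sum_congr rfl hcarry]
  by_cases hpn : p ∣ n
  · -- `p` divides `n`
    have hpm : p ∣ m := by rw [hm]; exact dvd_mul_of_dvd_right hpn b
    have hpM : p ∣ M := by rw [hM]; exact dvd_mul_of_dvd_right hpn a
    have z1 : ∑ i ∈ Ico 1 B, (if p ^ i ∣ 2 * m + 1 then 1 else 0) = 0 := by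
      apply Finset.sum_eq_zero
      intro i hi
      rw [mem_Ico] at hi
      rw [if_neg]
      intro h
      have h1 : p ∣ 2 * m + 1 := (dvd_pow_self p (by omega)).trans h
      have h2 : p ∣ 1 := (Nat.dvd_add_right (dvd_mul_of_dvd_right hpm 2)).mp h1
      exact pp.one_lt.ne' (Nat.dvd_one.mp h2)
    rw [z1, zero_add]
    by_cases hp3 : p = 3
    · subst hp3
      have f3 : (3 : ℕ).factorization 3 = 1 := by
        rw [Nat.Prime.factorization Nat.prime_three]; simp
      rw [f3]
      have hterm : ∀ i ∈ Ico 1 B, (if 3 ^ i ∣ 2 * m + 3 then 1 else 0) +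
          (if 3 ^ i ≤ m % 3 ^ i + m % 3 ^ i then 1 else 0) ≤
          (if i = 1 then 1 else 0) + (if 2 ≤ i ∧ 3 ^ (i - 1) ∣ a - b then 1 else 0) +
          ((if 3 ^ i ≤ M % 3 ^ i + M % 3 ^ i then 1 else 0) + (if M % 3 ^ i < m % 3 ^ i then 1 else 0)) := by
        intro i hi
        rw [mem_Ico] at hi
        have b1 := base (q := 3 ^ i) (M := M) (m := m)
        by_cases h3 : 3 ^ i ∣ 2 * m + 3
        · rw [if_pos h3]
          have hq : 1 < 3 ^ i := Nat.one_lt_pow (by omega) (by norm_num)
          have e3 := odd3 hq h3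
          rw [if_neg (show ¬ 3 ^ i ≤ m % 3 ^ i + m % 3 ^ i by omega)]
          by_cases hi1 : i = 1
          · rw [if_pos hi1]; omega
          · have hi2 : 2 ≤ i := by omega
            rcases Nat.lt_trichotomy (M % 3 ^ i) (m % 3 ^ i) with h | h | h
            · rw [if_pos h]; omega
            · -- `3^i ∣ M - m`
              have h5 := dvd_sub1 h
              rw [eMm] at h5
              obtain ⟨n', hn'⟩ := hpn
              have hn3 : ¬ 3 ∣ n' := by
                intro hd
                obtain ⟨n'', hn''⟩ := hd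
                have h9 : 9 ∣ 2 * m + 3 := by
                  have : (9 : ℕ) = 3 ^ 2 := by norm_num
                  rw [this]
                  exact (pow_dvd_pow 3 hi2).trans h3
                have h10 : 9 ∣ m := by
                  rw [hm, hn', hn'']
                  exact ⟨b * n'', by ring⟩
                omega
              have h6 : 3 ^ i = 3 * 3 ^ (i - 1) := by
                rw [← pow_succ']
                congr 1
                omega
              have h7 : 3 ^ (i - 1) ∣ (a - b) * n' := by
                rw [hn', h6] at h5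
                have : 3 * 3 ^ (i - 1) ∣ 3 * ((a - b) * n') := by
                  convert h5 using 1
                  ring
                exact Nat.dvd_of_mul_dvd_mul_left (by norm_num) this
              have h8 : Nat.Coprime (3 ^ (i - 1)) n' :=
                Nat.Coprime.pow_left _ ((Nat.Prime.coprime_iff_not_dvd Nat.prime_three).mpr hn3)
              have h9 := h8.dvd_of_dvd_mul_right h7
              rw [if_pos (show 2 ≤ i ∧ 3 ^ (i - 1) ∣ a - b from ⟨hi2, h9⟩)]
              omega
            · rcases Nat.lt_or_ge (m % 3 ^ i + 1) (M % 3 ^ i) with h4 | h4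
              · rw [if_pos (show 3 ^ i ≤ M % 3 ^ i + M % 3 ^ i by omega)]; omega
              · exfalso
                have h5 : M % 3 ^ i = m % 3 ^ i + 1 := by omega
                have h6 : M % 3 ^ i % 3 = M % 3 := Nat.mod_mod_of_dvd M (dvd_pow_self 3 (by omega))
                have h7 : m % 3 ^ i % 3 = m % 3 := Nat.mod_mod_of_dvd m (dvd_pow_self 3 (by omega))
                omega
        · rw [if_neg h3]
          omega
      have hsum := Finset.sum_le_sum hterm
      simp only [Finset.sum_add_distrib] at hsum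
      have s1 : ∑ i ∈ Ico 1 B, (if i = 1 then 1 else 0) ≤ 1 := by
        rw [Finset.sum_ite_eq' (Ico 1 B) 1 (fun _ => 1)]
        split_ifs <;> omega
      have s2 : ∑ i ∈ Ico 1 B, (if 2 ≤ i ∧ 3 ^ (i - 1) ∣ a - b then 1 else 0) ≤
          ∑ i ∈ Ico 1 B, (if 3 ^ i ∣ a - b then 1 else 0) := by
        rw [← Finset.card_filter, ← Finset.card_filter]
        apply Finset.card_le_card_of_injOn (fun i => i - 1)
        · intro i hi
          simp only [coe_filter, mem_Ico, Set.mem_ofPred_eq] at hi ⊢
          exact ⟨⟨by omega, by omega⟩, hi.2.2⟩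
        · intro i hi j hj hij
          simp only [coe_filter, mem_Ico, Set.mem_ofPred_eq] at hi hj
          simp only at hij
          omega
      omega
    · have z3 : ∑ i ∈ Ico 1 B, (if p ^ i ∣ 2 * m + 3 then 1 else 0) = 0 := by
        apply Finset.sum_eq_zero
        intro i hi
        rw [mem_Ico] at hi
        rw [if_neg]
        intro h
        have h1 : p ∣ 2 * m + 3 := (dvd_pow_self p (by omega)).trans h
        have h2 : p ∣ 3 := (Nat.dvd_add_right (dvd_mul_of_dvd_right hpm 2)).mp h1
        exact hp3 ((Nat.prime_dvd_prime_iff_eq pp Nat.prime_three).mp h2)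
      rw [z3]
      have hsum := Finset.sum_le_sum (fun i (_ : i ∈ Ico 1 B) => base (q := p ^ i) (M := M) (m := m))
      simp only [Finset.sum_add_distrib] at hsum
      omega
  · -- `p` does not divide `n`
    have hterm : ∀ i ∈ Ico 1 B, (if p ^ i ∣ 2 * m + 1 then 1 else 0) + (if p ^ i ∣ 2 * m + 3 then 1 else 0) +
        (if p ^ i ≤ m % p ^ i + m % p ^ i then 1 else 0) ≤
        (if p ^ i ∣ a - b then 1 else 0) + (if p ^ i ∣ 3 * a - b then 1 else 0) +
        (if p ^ i ≤ M % p ^ i + M % p ^ i then 1 else 0) + (if M % p ^ i < m % p ^ i then 1 else 0) := by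
      intro i hi
      rw [mem_Ico] at hi
      have ht := term (q := p ^ i) (M := M) (m := m) (Nat.one_lt_pow (by omega) pp.one_lt) hmM.le
      have hcop : Nat.Coprime (p ^ i) n := Nat.Coprime.pow_left _ ((pp.coprime_iff_not_dvd).mpr hpn)
      have g1 : (if p ^ i ∣ M - m then 1 else 0) = (if p ^ i ∣ a - b then 1 else 0) := by
        rw [eMm]
        by_cases h : p ^ i ∣ a - b
        · rw [if_pos h, if_pos (dvd_mul_of_dvd_left h n)]
        · rw [if_neg h, if_neg (fun h2 => h (hcop.dvd_of_dvd_mul_right h2))]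
      have g2 : (if p ^ i ∣ 3 * M - m then 1 else 0) = (if p ^ i ∣ 3 * a - b then 1 else 0) := by
        rw [e3Mm]
        by_cases h : p ^ i ∣ 3 * a - b
        · rw [if_pos h, if_pos (dvd_mul_of_dvd_left h n)]
        · rw [if_neg h, if_neg (fun h2 => h (hcop.dvd_of_dvd_mul_right h2))]
      rw [g1, g2] at ht
      exact ht
    have hsum := Finset.sum_le_sum hterm
    simp only [Finset.sum_add_distrib] at hsum
    omega

end Pool.Agent.Results.MP_698530_nt.Full
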